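import Mathlib

set_option autoImplicit false

namespace Pool.Agent.Results.MP_e338b6_an.SupportDimThree

open MeasureTheory Set Filter Topology
open scoped ENNReal ContDiff

/-- Euclidean space `ℝⁿ`. -/
abbrev E (n : ℕ) := EuclideanSpace ℝ (Fin n)

/-- The measure `f · Lⁿ`. -/
noncomputable def dens {n : ℕ} (f : E n → ℝ) : Measure (E n) :=
  volume.withDensity fun x => ENNReal.ofReal (f x)

/-- Smooth compactly supported probability densities. -/
structure IsSmoothDensity {n : ℕ} (f : E n → ℝ) : Prop where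
  smooth : ContDiff ℝ ∞ f
  compactSupport : HasCompactSupport f
  nonneg : ∀ x, 0 ≤ f x
  prob : IsProbabilityMeasure (dens f)

/-- Couplings of `μ` and `ν`. -/
def IsCoupling {n : ℕ} (μ ν : Measure (E n)) (π : Measure (E n × E n)) : Prop :=
  IsProbabilityMeasure π ∧ π.map Prod.fst = μ ∧ π.map Prod.snd = ν

/-- The transport cost `∫ |x - y| dπ`. -/
noncomputable def cost {n : ℕ} (π : Measure (E n × E n)) : ℝ≥0∞ := ∫⁻ p, edist p.1 p.2 ∂π

/-- Optimal couplings for the cost `|x - y|`. -/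
def IsOptimal {n : ℕ} (μ ν : Measure (E n)) (π : Measure (E n × E n)) : Prop :=
  IsCoupling μ ν π ∧ ∀ π', IsCoupling μ ν π' → cost π ≤ cost π'

/-! ### The sets -/

/-- A dense open subset of `(0,1)` of small measure. -/
lemma exists_U : ∃ U : Set ℝ, IsOpen U ∧ U ⊆ Ioo 0 1 ∧ volume U < 1 / 2 ∧
    ∀ e ∈ Icc (0 : ℝ) 1, ∀ η > 0, ∃ u ∈ U, |u - e| < η := by
  have h0 : volume (Ioo (0 : ℝ) 1 ∩ range ((↑) : ℚ → ℝ)) < 1 / 2 := by
    have : volume (Ioo (0 : ℝ) 1 ∩ range ((↑) : ℚ → ℝ)) = 0 :=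
      ((countable_range _).mono inter_subset_right).measure_zero _
    rw [this]
    simp
  obtain ⟨U, hU, hUo, hUv⟩ := Set.exists_isOpen_lt_of_lt _ _ h0
  refine ⟨U ∩ Ioo 0 1, hUo.inter isOpen_Ioo, inter_subset_right,
    (measure_mono inter_subset_left).trans_lt hUv, fun e he η hη => ?_⟩
  have h1 : max 0 (e - η) < min 1 (e + η) := by
    rw [max_lt_iff, lt_min_iff, lt_min_iff]
    refine ⟨⟨one_pos, by linarith [he.1]⟩, by linarith [he.2], by linarith⟩
  obtain ⟨q, hq1, hq2⟩ := exists_rat_btwn h1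
  rw [max_lt_iff] at hq1
  rw [lt_min_iff] at hq2
  refine ⟨q, ⟨hU ⟨⟨hq1.1, hq2.1⟩, mem_range_self _⟩, ⟨hq1.1, hq2.1⟩⟩, ?_⟩
  rw [abs_lt]
  constructor <;> linarith

section sets

variable {U : Set ℝ}

/-- distance to the complement of `U` -/
noncomputable def d (U : Set ℝ) (x : ℝ) : ℝ := Metric.infDist x Uᶜ

/-- the oscillating height -/
noncomputable def τ (U : Set ℝ) (x : ℝ) : ℝ := 5 / 2 + 1 / 2 * Real.sin (1 / d U x)

/-- the thin oscillating open set -/
def V (U : Set ℝ) : Set (ℝ × ℝ) := {p | p.1 ∈ U ∧ |p.2 - τ U p.1| < d U p.1}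

lemma continuous_d : Continuous (d U) := Metric.continuous_infDist_pt _

lemma d_pos (hU : IsOpen U) (hU1 : U ⊆ Ioo 0 1) {x : ℝ} (hx : x ∈ U) : 0 < d U x := by
  have hne : (Uᶜ : Set ℝ).Nonempty := ⟨2, fun h => by have := (hU1 h).2; norm_num at this⟩
  exact (hU.isClosed_compl.notMem_iff_infDist_pos hne).1 (fun h => h hx)

lemma d_zero {x : ℝ} (hx : x ∉ U) : d U x = 0 := Metric.infDist_zero_of_mem hx

lemma d_le (hU1 : U ⊆ Ioo 0 1) {x : ℝ} (hx : x ∈ U) : d U x ≤ 1 / 2 := by
  have h0 : (0 : ℝ) ∈ Uᶜ := fun h => by have := (hU1 h).1; norm_num at this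
  have h1 : (1 : ℝ) ∈ Uᶜ := fun h => by have := (hU1 h).2; norm_num at this
  have e0 := Metric.infDist_le_dist_of_mem (x := x) h0
  have e1 := Metric.infDist_le_dist_of_mem (x := x) h1
  rw [Real.dist_eq] at e0 e1
  have hx' := hU1 hx
  rw [abs_of_pos (by linarith [hx'.1])] at e0
  rw [abs_of_neg (by linarith [hx'.2])] at e1
  unfold d
  linarith

lemma continuousOn_τ (hU : IsOpen U) (hU1 : U ⊆ Ioo 0 1) : ContinuousOn (τ U) U := by
  unfold τ
  refine continuousOn_const.add (continuousOn_const.mul (Real.continuous_sin.comp_continuousOn ?_))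
  exact continuousOn_const.div continuous_d.continuousOn fun x hx => (d_pos hU hU1 hx).ne'

lemma isOpen_V (hU : IsOpen U) (hU1 : U ⊆ Ioo 0 1) : IsOpen (V U) := by
  have h1 : ContinuousOn (fun p : ℝ × ℝ => |p.2 - τ U p.1| - d U p.1) (Prod.fst ⁻¹' U) := by
    refine ContinuousOn.sub (ContinuousOn.abs (continuousOn_snd.sub
      ((continuousOn_τ hU hU1).comp continuousOn_fst fun p hp => hp)))
      (continuous_d.comp continuous_fst).continuousOn
  have h2 := h1.isOpen_inter_preimage (hU.preimage continuous_fst) (isOpen_Iio (a := (0 : ℝ)))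
  convert h2 using 1
  ext p
  simp [V]

lemma V_bound (hU1 : U ⊆ Ioo 0 1) {p : ℝ × ℝ} (hp : p ∈ V U) :
    0 < p.1 ∧ p.1 < 1 ∧ 3 / 2 < p.2 ∧ p.2 < 7 / 2 := by
  have h1 := hU1 hp.1
  have h2 := d_le hU1 hp.1
  have h3 := abs_lt.1 hp.2
  have h4 := Real.sin_le_one (1 / d U p.1)
  have h5 := Real.neg_one_le_sin (1 / d U p.1)
  unfold τ at h3
  refine ⟨h1.1, h1.2, by linarith, by linarith⟩

/-- near every point of `[0,1] \ U` the height takes every value in `[2,3]` at arbitrarily small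
distances to the complement. -/
lemma exists_x (hU : IsOpen U) (hU1 : U ⊆ Ioo 0 1)
    (hdense : ∀ e ∈ Icc (0 : ℝ) 1, ∀ η > 0, ∃ u ∈ U, |u - e| < η)
    {e t η : ℝ} (he : e ∈ Icc (0 : ℝ) 1) (heU : e ∉ U) (ht : t ∈ Icc (2 : ℝ) 3) (hη : 0 < η) :
    ∃ x ∈ U, |x - e| < η ∧ d U x < η ∧ τ U x = t := by
  obtain ⟨u, hu, hue⟩ := hdense e he η hη
  have hdu := d_pos hU hU1 hu
  set θ := Real.arcsin (2 * t - 5) with hθ
  have hsin : Real.sin θ = 2 * t - 5 := Real.sin_arcsin (by linarith [ht.1]) (by linarith [ht.2])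
  -- choose a large period
  obtain ⟨N, hN⟩ := exists_nat_gt ((1 / min (d U u) η - θ) / (2 * Real.pi))
  have hpi := Real.pi_pos
  have hmin : 0 < min (d U u) η := lt_min hdu hη
  have hN' : 1 / min (d U u) η < θ + N * (2 * Real.pi) := by
    rw [div_lt_iff₀ (by positivity)] at hN
    linarith
  have hpos : 0 < θ + N * (2 * Real.pi) := (by positivity : (0 : ℝ) < 1 / min (d U u) η).trans hN'
  set c := 1 / (θ + N * (2 * Real.pi)) with hc
  have hcpos : 0 < c := by positivity
  have hclt : c < min (d U u) η := by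
    rw [hc, div_lt_iff₀ hpos]
    rw [div_lt_iff₀ hmin] at hN'
    linarith
  have hivt := intermediate_value_uIcc (a := e) (b := u) (f := d U) continuous_d.continuousOn
  have hmem : c ∈ uIcc (d U e) (d U u) := by
    rw [d_zero heU, uIcc_of_le hdu.le]
    exact ⟨hcpos.le, (hclt.trans_le (min_le_left _ _)).le⟩
  obtain ⟨x, hx, hxc⟩ := hivt hmem
  refine ⟨x, ?_, ?_, ?_, ?_⟩
  · by_contra h
    rw [d_zero h] at hxc
    linarith
  · refine lt_of_le_of_lt ?_ hue
    have := abs_sub_left_of_mem_uIcc hx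
    simpa using this
  · rw [hxc]
    exact hclt.trans_le (min_le_right _ _)
  · unfold τ
    rw [hxc, hc, one_div_one_div, Real.sin_add_nat_mul_two_pi, hsin]
    ring

end sets

/-! ### The plane -/

/-- The point of the Euclidean plane with coordinates `(a, b)`. -/
noncomputable def T (p : ℝ × ℝ) : E 2 := !₂[p.1, p.2]

@[simp] lemma T_zero (p : ℝ × ℝ) : T p 0 = p.1 := by simp [T]
@[simp] lemma T_one (p : ℝ × ℝ) : T p 1 = p.2 := by simp [T]

lemma T_coords (x : E 2) : T (x 0, x 1) = x := by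
  ext i
  fin_cases i <;> simp [T]

lemma T_mp : MeasurePreserving T (volume : Measure (ℝ × ℝ)) (volume : Measure (E 2)) := by
  have h1 := (volume_preserving_finTwoArrow ℝ).symm
  have h2 := (PiLp.volume_preserving_toLp (Fin 2)).comp h1
  have h3 : T = WithLp.toLp 2 ∘ MeasurableEquiv.finTwoArrow.symm := by
    funext p
    ext i
    fin_cases i <;> simp [T]
  rw [h3]
  exact h2

lemma edist_T_vertical (x s t : ℝ) (h : s ≤ t) :
    ENNReal.ofReal s + edist (T (x, s)) (T (x, t)) = ENNReal.ofReal t ∨ s < 0 := by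
  by_cases hs : 0 ≤ s
  · left
    rw [edist_dist, EuclideanSpace.dist_eq, Fin.sum_univ_two]
    simp only [T_zero, T_one, dist_self]
    rw [← ENNReal.ofReal_add hs (Real.sqrt_nonneg _)]
    congr 1
    rw [Real.dist_eq, sq_abs, zero_pow two_ne_zero, zero_add, Real.sqrt_sq_eq_abs,
      abs_of_nonpos (by linarith)]
    ring
  · exact Or.inr (not_le.1 hs)

lemma contDiff_T : ContDiff ℝ ∞ T := by
  rw [contDiff_euclidean]
  intro i
  fin_cases i
  · simpa using contDiff_fst
  · simpa using contDiff_snd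

/-- smooth probability density with prescribed open bounded support -/
lemma exists_bump {X : Type} [NormedAddCommGroup X] [InnerProductSpace ℝ X]
    [FiniteDimensional ℝ X] [MeasurableSpace X] [BorelSpace X] {W K : Set X} (hW : IsOpen W)
    (hne : W.Nonempty) (hK : IsCompact K) (hWK : W ⊆ K) :
    ∃ h : X → ℝ, Function.support h = W ∧ ContDiff ℝ ∞ h ∧ (∀ x, 0 ≤ h x) ∧
      HasCompactSupport h ∧ ∫ x, h x = 1 := by
  obtain ⟨h, hs, hc, hr⟩ := IsOpen.exists_contDiff_support_eq (n := ⊤) hW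
  have hnn : ∀ x, 0 ≤ h x := fun x => (hr (mem_range_self x)).1
  have hcs : HasCompactSupport h :=
    HasCompactSupport.of_support_subset_isCompact hK (by rw [hs]; exact hWK)
  obtain ⟨x, hx⟩ := hne
  have hx' : h x ≠ 0 := by
    rw [← hs] at hx
    exact hx
  have hI : 0 < ∫ x, h x :=
    Continuous.integral_pos_of_hasCompactSupport_nonneg_nonzero hc.continuous hcs hnn hx'
  refine ⟨fun y => (∫ x, h x)⁻¹ * h y, ?_, contDiff_const.mul hc,
    fun y => mul_nonneg (inv_pos.2 hI).le (hnn y), hcs.mul_left, ?_⟩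
  · ext y
    simp only [Function.mem_support, ne_eq, mul_eq_zero, inv_eq_zero, hI.ne', false_or]
    rw [← hs]
    rfl
  · rw [integral_const_mul, inv_mul_cancel₀ hI.ne']

lemma lintegral_ofReal {X : Type} [NormedAddCommGroup X] [InnerProductSpace ℝ X]
    [FiniteDimensional ℝ X] [MeasurableSpace X] [BorelSpace X] {h : X → ℝ}
    (hc : Continuous h) (hcs : HasCompactSupport h) (hnn : ∀ x, 0 ≤ h x) :
    ∫⁻ x, ENNReal.ofReal (h x) = ENNReal.ofReal (∫ x, h x) :=
  (ofReal_integral_eq_lintegral_ofReal (hc.integrable_of_hasCompactSupport hcs)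
    (ae_of_all _ hnn)).symm

lemma map_T {F : E 2 → ℝ≥0∞} (hF : Measurable F) :
    (volume : Measure (E 2)).withDensity F =
      ((volume : Measure (ℝ × ℝ)).withDensity (F ∘ T)).map T := by
  ext A hA
  rw [Measure.map_apply T_mp.measurable hA, withDensity_apply _ hA,
    withDensity_apply _ (T_mp.measurable hA)]
  exact (T_mp.setLIntegral_comp_preimage hA hF).symm

lemma map_fst_withDensity {G : ℝ × ℝ → ℝ≥0∞} (hG : Measurable G) :
    ((volume : Measure (ℝ × ℝ)).withDensity G).map Prod.fst =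
      (volume : Measure ℝ).withDensity fun x => ∫⁻ t, G (x, t) := by
  ext A hA
  rw [Measure.map_apply measurable_fst hA, withDensity_apply _ (measurable_fst hA),
    withDensity_apply _ hA, ← prod_univ, Measure.volume_eq_prod, ← Measure.prod_restrict,
    Measure.restrict_univ, lintegral_prod _ hG.aemeasurable]

/-- smoothness of the vertical mass -/
lemma contDiff_mass {H : ℝ × ℝ → ℝ} (hH : ContDiff ℝ ∞ H) {a b : ℝ}
    (hs : ∀ x t, t ∉ Icc a b → H (x, t) = 0) :
    ContDiff ℝ ∞ fun x => ∫ t, H (x, t) := by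
  have h := contDiffOn_convolution_right_with_param_comp (𝕜 := ℝ) (n := ⊤) (μ := volume)
    (ContinuousLinearMap.mul ℝ ℝ) (s := univ) (v := fun _ : ℝ => (0 : ℝ)) contDiffOn_const
    (f := fun _ : ℝ => (1 : ℝ)) (g := fun x t => H (x, -t)) (k := Icc (-b) (-a)) isOpen_univ
    isCompact_Icc (fun x t _ ht => hs x (-t) fun h' => ht ⟨by linarith [h'.2], by linarith [h'.1]⟩)
    (locallyIntegrable_const 1) (by
      refine ContDiff.contDiffOn ?_
      exact hH.comp (contDiff_fst.prodMk contDiff_snd.neg))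
  rw [contDiffOn_univ] at h
  convert h using 2 with x
  rw [convolution_def]
  simp

/-- The data of the example. -/
structure Data (U : Set ℝ) (H : E 2 → ℝ) (k : ℝ → ℝ) : Prop where
  openU : IsOpen U
  U1 : U ⊆ Ioo 0 1
  Uvol : volume U < 1 / 2
  dense : ∀ e ∈ Icc (0 : ℝ) 1, ∀ η > 0, ∃ u ∈ U, |u - e| < η
  Hsupp : ∀ p, H (T p) ≠ 0 ↔ p ∈ V U
  Hc : ContDiff ℝ ∞ H
  Hnn : ∀ x, 0 ≤ H x
  Hcs : HasCompactSupport H
  Hint : ∫ x, H x = 1
  ksupp : ∀ s, k s ≠ 0 ↔ s ∈ Ioo (0 : ℝ) 1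
  kc : ContDiff ℝ ∞ k
  knn : ∀ x, 0 ≤ k x
  kcs : HasCompactSupport k
  kint : ∫ x, k x = 1

lemma exists_data : ∃ U H k, Data U H k := by
  obtain ⟨U, h1, h2, h3, h4⟩ := exists_U
  have hW : IsOpen {x : E 2 | (x 0, x 1) ∈ V U} :=
    (isOpen_V h1 h2).preimage (by fun_prop)
  have hK : {x : E 2 | (x 0, x 1) ∈ V U} ⊆ Metric.closedBall 0 5 := by
    intro x hx
    have hb := V_bound h2 hx
    simp only at hb
    rw [mem_closedBall_zero_iff, EuclideanSpace.norm_eq, Fin.sum_univ_two, Real.norm_eq_abs,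
      Real.norm_eq_abs, sq_abs, sq_abs, Real.sqrt_le_left (by norm_num)]
    nlinarith
  have hne : {x : E 2 | (x 0, x 1) ∈ V U}.Nonempty := by
    obtain ⟨u, hu, _⟩ := h4 0 ⟨le_rfl, zero_le_one⟩ 1 one_pos
    refine ⟨T (u, τ U u), ?_⟩
    simp only [mem_ofPred_eq, T_zero, T_one]
    exact ⟨hu, by simpa using d_pos h1 h2 hu⟩
  obtain ⟨H, hH1, hH2, hH3, hH4, hH5⟩ := exists_bump hW hne (isCompact_closedBall 0 5) hK
  obtain ⟨k, hk1, hk2, hk3, hk4, hk5⟩ := exists_bump (X := ℝ) (isOpen_Ioo (a := (0 : ℝ)) (b := 1))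
    ⟨1 / 2, by norm_num, by norm_num⟩ (isCompact_Icc (a := (0 : ℝ)) (b := 1)) Ioo_subset_Icc_self
  refine ⟨U, H, k, h1, h2, h3, h4, fun p => ?_, hH2, hH3, hH4, hH5, fun s => ?_, hk2, hk3, hk4, hk5⟩
  · rw [← Function.mem_support, hH1]
    simp
  · rw [← Function.mem_support, hk1]

/-- the vertical mass -/
noncomputable def m (H : E 2 → ℝ) (x : ℝ) : ℝ := ∫ t, H (T (x, t))

/-- the first density -/
noncomputable def f (H : E 2 → ℝ) (k : ℝ → ℝ) (x : E 2) : ℝ := m H (x 0) * k (x 1)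

section main

variable {U : Set ℝ} {H : E 2 → ℝ} {k : ℝ → ℝ} (D : Data U H k)

include D

lemma Data.slice_zero (x t : ℝ) (ht : t ∉ Icc (3 / 2 : ℝ) (7 / 2)) : H (T (x, t)) = 0 := by
  by_contra h
  have := V_bound D.U1 ((D.Hsupp _).1 h)
  exact ht ⟨this.2.2.1.le, this.2.2.2.le⟩

lemma Data.slice_cs (x : ℝ) : HasCompactSupport fun t => H (T (x, t)) := by
  refine HasCompactSupport.of_support_subset_isCompact (isCompact_Icc (a := (3 / 2 : ℝ))
    (b := 7 / 2)) fun t ht => ?_
  by_contra h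
  exact ht (D.slice_zero x t h)

lemma Data.slice_cont (x : ℝ) : Continuous fun t => H (T (x, t)) :=
  D.Hc.continuous.comp (contDiff_T.continuous.comp (by fun_prop))

lemma Data.m_nonneg (x : ℝ) : 0 ≤ m H x := integral_nonneg fun _ => D.Hnn _

lemma Data.m_pos {x : ℝ} (hx : x ∈ U) : 0 < m H x := by
  refine Continuous.integral_pos_of_hasCompactSupport_nonneg_nonzero (x := τ U x)
    (D.slice_cont x) (D.slice_cs x) (fun _ => D.Hnn _) ?_
  rw [D.Hsupp]
  exact ⟨hx, by simpa using d_pos D.openU D.U1 hx⟩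

lemma Data.m_zero {x : ℝ} (hx : x ∉ U) : m H x = 0 := by
  unfold m
  have : (fun t => H (T (x, t))) = fun _ => 0 := by
    funext t
    by_contra h
    exact hx ((D.Hsupp _).1 h).1
  rw [this, integral_zero]

lemma Data.lintegral_m (x : ℝ) :
    ∫⁻ t, ENNReal.ofReal (H (T (x, t))) = ENNReal.ofReal (m H x) :=
  lintegral_ofReal (D.slice_cont x) (D.slice_cs x) fun _ => D.Hnn _

lemma Data.contDiff_m : ContDiff ℝ ∞ (m H) :=
  contDiff_mass (H := fun p => H (T p)) (D.Hc.comp contDiff_T) D.slice_zero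

lemma Data.f_ne {x : E 2} : f H k x ≠ 0 ↔ x 0 ∈ U ∧ x 1 ∈ Ioo (0 : ℝ) 1 := by
  unfold f
  rw [mul_ne_zero_iff, D.ksupp]
  refine and_congr_left fun _ => ⟨fun h => ?_, fun h => (D.m_pos h).ne'⟩
  by_contra h'
  exact h (D.m_zero h')

lemma Data.f_nonneg (x : E 2) : 0 ≤ f H k x := mul_nonneg (D.m_nonneg _) (D.knn _)

lemma Data.contDiff_f : ContDiff ℝ ∞ (f H k) := by
  have h0 : ContDiff ℝ ∞ fun x : E 2 => x 0 := (EuclideanSpace.proj (𝕜 := ℝ) (0 : Fin 2)).contDiff
  have h1 : ContDiff ℝ ∞ fun x : E 2 => x 1 := (EuclideanSpace.proj (𝕜 := ℝ) (1 : Fin 2)).contDiff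
  exact (D.contDiff_m.comp h0).mul (D.kc.comp h1)

lemma Data.f_cs : HasCompactSupport (f H k) := by
  refine HasCompactSupport.of_support_subset_isCompact (isCompact_closedBall 0 5) fun x hx => ?_
  have h := D.f_ne.1 hx
  have h1 := D.U1 h.1
  have h2 := h.2
  rw [mem_closedBall_zero_iff, EuclideanSpace.norm_eq, Fin.sum_univ_two, Real.norm_eq_abs,
    Real.norm_eq_abs, sq_abs, sq_abs, Real.sqrt_le_left (by norm_num)]
  nlinarith [h1.1, h1.2, h2.1, h2.2]

lemma Data.meas_H : Measurable fun x => ENNReal.ofReal (H x) :=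
  ENNReal.measurable_ofReal.comp D.Hc.continuous.measurable

lemma Data.meas_HT : Measurable fun p => ENNReal.ofReal (H (T p)) :=
  D.meas_H.comp T_mp.measurable

lemma Data.meas_m : Measurable fun x => ENNReal.ofReal (m H x) :=
  ENNReal.measurable_ofReal.comp D.contDiff_m.continuous.measurable

lemma Data.meas_k : Measurable fun x => ENNReal.ofReal (k x) :=
  ENNReal.measurable_ofReal.comp D.kc.continuous.measurable

lemma Data.meas_f : Measurable fun x => ENNReal.ofReal (f H k x) :=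
  ENNReal.measurable_ofReal.comp D.contDiff_f.continuous.measurable

lemma Data.prob_k : IsProbabilityMeasure ((volume : Measure ℝ).withDensity
    fun x => ENNReal.ofReal (k x)) := by
  refine ⟨?_⟩
  rw [withDensity_apply _ MeasurableSet.univ, Measure.restrict_univ,
    lintegral_ofReal D.kc.continuous D.kcs D.knn, D.kint, ENNReal.ofReal_one]

lemma Data.prob_H : IsProbabilityMeasure (dens H) := by
  refine ⟨?_⟩
  unfold dens
  rw [withDensity_apply _ MeasurableSet.univ, Measure.restrict_univ,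
    lintegral_ofReal D.Hc.continuous D.Hcs D.Hnn, D.Hint, ENNReal.ofReal_one]

lemma Data.dens_H : dens H = ((volume : Measure (ℝ × ℝ)).withDensity
    fun p => ENNReal.ofReal (H (T p))).map T := map_T D.meas_H

lemma Data.prob_HT : IsProbabilityMeasure ((volume : Measure (ℝ × ℝ)).withDensity
    fun p => ENNReal.ofReal (H (T p))) := by
  refine ⟨?_⟩
  have h := D.prob_H.measure_univ
  rw [D.dens_H, Measure.map_apply T_mp.measurable MeasurableSet.univ, preimage_univ] at h
  exact h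

/-- the vertical product plan on coordinates -/
noncomputable def rho (H : E 2 → ℝ) (k : ℝ → ℝ) : Measure ((ℝ × ℝ) × ℝ) :=
  ((volume : Measure (ℝ × ℝ)).withDensity fun p => ENNReal.ofReal (H (T p))).prod
    ((volume : Measure ℝ).withDensity fun x => ENNReal.ofReal (k x))

/-- `((x,t),s) ↦ ((x,s),(x,t))` -/
noncomputable def Φ (q : (ℝ × ℝ) × ℝ) : E 2 × E 2 := (T (q.1.1, q.2), T q.1)

omit D in
lemma measurable_Φ : Measurable Φ := by
  refine Measurable.prodMk (T_mp.measurable.comp ?_) (T_mp.measurable.comp measurable_fst)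
  exact (measurable_fst.comp measurable_fst).prodMk measurable_snd

/-- The vertical plan is a coupling. -/
lemma Data.coupling : IsCoupling (dens (f H k)) (dens H) ((rho H k).map Φ) := by
  have := D.prob_HT
  have := D.prob_k
  have hp : IsProbabilityMeasure (rho H k) := by unfold rho; infer_instance
  refine ⟨Measure.isProbabilityMeasure_map measurable_Φ.aemeasurable, ?_, ?_⟩
  · rw [Measure.map_map measurable_fst measurable_Φ]
    have h1 : Prod.fst ∘ Φ = T ∘ Prod.map Prod.fst id := by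
      funext q; rfl
    rw [h1, ← Measure.map_map T_mp.measurable (measurable_fst.prodMap measurable_id), rho,
      ← Measure.map_prod_map _ _ measurable_fst measurable_id, Measure.map_id,
      map_fst_withDensity D.meas_HT]
    simp_rw [D.lintegral_m]
    rw [prod_withDensity D.meas_m D.meas_k, dens, map_T D.meas_f]
    congr 1
    rw [← Measure.volume_eq_prod]
    congr 1
    funext p
    simp only [Function.comp, f, T_zero, T_one]
    rw [ENNReal.ofReal_mul (D.m_nonneg _)]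
  · rw [Measure.map_map measurable_snd measurable_Φ]
    have h1 : Prod.snd ∘ Φ = T ∘ Prod.fst := by
      funext q; rfl
    rw [h1, ← Measure.map_map T_mp.measurable measurable_fst, rho, Measure.map_fst_prod,
      measure_univ, one_smul, D.dens_H]

lemma Data.prob_f : IsProbabilityMeasure (dens (f H k)) := by
  obtain ⟨h1, h2, _⟩ := D.coupling
  rw [← h2]
  exact Measure.isProbabilityMeasure_map measurable_fst.aemeasurable

lemma Data.density_f : IsSmoothDensity (f H k) := ⟨D.contDiff_f, D.f_cs, D.f_nonneg, D.prob_f⟩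

lemma Data.density_H : IsSmoothDensity H := ⟨D.Hc, D.Hcs, D.Hnn, D.prob_H⟩

lemma Data.ae_f : ∀ᵐ x ∂(dens (f H k)), x 0 ∈ U ∧ x 1 ∈ Ioo (0 : ℝ) 1 := by
  unfold dens
  rw [ae_withDensity_iff D.meas_f]
  refine ae_of_all _ fun x hx => D.f_ne.1 fun h => hx ?_
  rw [h, ENNReal.ofReal_zero]

lemma Data.ae_H : ∀ᵐ x ∂(dens H), (x 0, x 1) ∈ V U := by
  unfold dens
  rw [ae_withDensity_iff D.meas_H]
  refine ae_of_all _ fun x hx => (D.Hsupp _).1 fun h => hx ?_
  rw [T_coords] at h
  rw [h, ENNReal.ofReal_zero]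

/-- almost sure information on couplings -/
lemma Data.ae_coupling {π : Measure (E 2 × E 2)} (hπ : IsCoupling (dens (f H k)) (dens H) π) :
    ∀ᵐ p ∂π, (p.1 0 ∈ U ∧ p.1 1 ∈ Ioo (0 : ℝ) 1) ∧ (p.2 0, p.2 1) ∈ V U := by
  obtain ⟨_, h2, h3⟩ := hπ
  have e1 := D.ae_f
  have e2 := D.ae_H
  rw [← h2] at e1
  rw [← h3] at e2
  filter_upwards [ae_of_ae_map measurable_fst.aemeasurable e1,
    ae_of_ae_map measurable_snd.aemeasurable e2] with p hp1 hp2
  exact ⟨hp1, hp2⟩

/-- cost identity for the vertical plan -/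
lemma Data.cost_vertical : ∫⁻ x, ENNReal.ofReal (x 1) ∂(dens (f H k)) + cost ((rho H k).map Φ) =
    ∫⁻ x, ENNReal.ofReal (x 1) ∂(dens H) := by
  have hc := D.coupling
  have hm1 : Measurable fun x : E 2 => ENNReal.ofReal (x 1) :=
    ENNReal.measurable_ofReal.comp (by fun_prop)
  conv_lhs => rw [← hc.2.1]
  conv_rhs => rw [← hc.2.2]
  have hadd := lintegral_add_left (μ := (rho H k).map Φ)
    (f := fun p : E 2 × E 2 => ENNReal.ofReal (p.1 1)) (hm1.comp measurable_fst)
    (fun p => edist p.1 p.2)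
  rw [lintegral_map hm1 measurable_fst, lintegral_map hm1 measurable_snd, cost, ← hadd]
  refine lintegral_congr_ae ?_
  have hv : ∀ᵐ p ∂((rho H k).map Φ), p.1 0 = p.2 0 := by
    rw [ae_map_iff measurable_Φ.aemeasurable]
    · exact ae_of_all _ fun q => by simp [Φ]
    · exact measurableSet_eq_fun (by fun_prop) (by fun_prop)
  filter_upwards [D.ae_coupling hc, hv] with p hp hv
  have hb := V_bound D.U1 hp.2
  have h := edist_T_vertical (p.1 0) (p.1 1) (p.2 1) (by linarith [hp.1.2.2, hb.2.2.1])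
  rcases h with h | h
  · rw [T_coords, hv, T_coords] at h
    exact h
  · exact absurd h (not_lt.2 hp.1.2.1.le)

omit D in
lemma pointwise (x y : E 2) :
    ENNReal.ofReal (y 1) ≤ ENNReal.ofReal (x 1) + edist x y := by
  rw [edist_dist]
  refine le_trans (ENNReal.ofReal_le_ofReal ?_) ENNReal.ofReal_add_le
  have h1 := PiLp.norm_apply_le (y - x) 1
  rw [Real.norm_eq_abs, PiLp.sub_apply] at h1
  rw [dist_comm, dist_eq_norm]
  linarith [le_abs_self (y 1 - x 1)]

omit D in
lemma vertical_of_eq {x y : E 2} (hx : 0 ≤ x 1) (hy : 0 ≤ y 1)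
    (h : ENNReal.ofReal (y 1) = ENNReal.ofReal (x 1) + edist x y) : y 0 = x 0 := by
  rw [edist_dist, ← ENNReal.ofReal_add hx dist_nonneg,
    ENNReal.ofReal_eq_ofReal_iff hy (add_nonneg hx dist_nonneg)] at h
  have h1 : dist x y = y 1 - x 1 := by linarith
  have h2 : dist x y ^ 2 = (x 0 - y 0) ^ 2 + (x 1 - y 1) ^ 2 := by
    rw [EuclideanSpace.dist_eq, Real.sq_sqrt (by positivity), Fin.sum_univ_two, Real.dist_eq,
      Real.dist_eq, sq_abs, sq_abs]
  rw [h1] at h2
  have h3 : (x 0 - y 0) ^ 2 = 0 := by nlinarith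
  have h4 : x 0 - y 0 = 0 := by simpa using h3
  linarith

/-- The first moment of the second marginal is finite. -/
lemma Data.Y_finite : ∫⁻ x, ENNReal.ofReal (x 1) ∂(dens H) ≠ ⊤ := by
  have := D.prob_H
  have h : ∫⁻ x, ENNReal.ofReal (x 1) ∂(dens H) ≤ ∫⁻ _, ENNReal.ofReal (7 / 2) ∂(dens H) := by
    refine lintegral_mono_ae ?_
    filter_upwards [D.ae_H] with x hx
    exact ENNReal.ofReal_le_ofReal (V_bound D.U1 hx).2.2.2.le
  refine ne_top_of_le_ne_top ?_ h
  rw [lintegral_const, measure_univ, mul_one]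
  exact ENNReal.ofReal_ne_top

omit D in
lemma meas_one : Measurable fun x : E 2 => ENNReal.ofReal (x 1) :=
  ENNReal.measurable_ofReal.comp (by fun_prop)

/-- The first moments and the cost of any coupling. -/
lemma Data.sum_eq {π : Measure (E 2 × E 2)} (hπ : IsCoupling (dens (f H k)) (dens H) π) :
    ∫⁻ x, ENNReal.ofReal (x 1) ∂(dens (f H k)) + cost π =
      ∫⁻ p, (ENNReal.ofReal (p.1 1) + edist p.1 p.2) ∂π := by
  have hadd := lintegral_add_left (μ := π)
    (f := fun p : E 2 × E 2 => ENNReal.ofReal (p.1 1)) (meas_one.comp measurable_fst)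
    (fun p => edist p.1 p.2)
  conv_lhs => rw [← hπ.2.1]
  rw [lintegral_map meas_one measurable_fst, cost, ← hadd]

/-- The vertical plan is optimal. -/
lemma Data.optimal : IsOptimal (dens (f H k)) (dens H) ((rho H k).map Φ) := by
  refine ⟨D.coupling, fun π hπ => ?_⟩
  have h1 := D.cost_vertical
  have h2 : ∫⁻ x, ENNReal.ofReal (x 1) ∂(dens H) ≤
      ∫⁻ x, ENNReal.ofReal (x 1) ∂(dens (f H k)) + cost π := by
    rw [D.sum_eq hπ]
    conv_lhs => rw [← hπ.2.2]
    rw [lintegral_map meas_one measurable_snd]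
    exact lintegral_mono fun p => pointwise p.1 p.2
  rw [← h1] at h2
  refine (ENNReal.add_le_add_iff_left ?_).1 h2
  refine ne_top_of_le_ne_top D.Y_finite ?_
  rw [← h1]
  exact le_self_add

/-- Every optimal plan is vertical. -/
lemma Data.vertical {π : Measure (E 2 × E 2)} (hπ : IsOptimal (dens (f H k)) (dens H) π) :
    ∀ᵐ p ∂π, p.2 0 = p.1 0 := by
  have h1 : ∫⁻ p, (ENNReal.ofReal (p.1 1) + edist p.1 p.2) ∂π ≤
      ∫⁻ p, ENNReal.ofReal (p.2 1) ∂π := by
    rw [← D.sum_eq hπ.1, ← lintegral_map meas_one measurable_snd, hπ.1.2.2, ← D.cost_vertical]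
    gcongr
    exact hπ.2 _ D.coupling
  have h2 : ∫⁻ p, ENNReal.ofReal (p.2 1) ∂π ≠ ⊤ := by
    rw [← lintegral_map meas_one measurable_snd, hπ.1.2.2]
    exact D.Y_finite
  have hm : Measurable fun p : E 2 × E 2 => ENNReal.ofReal (p.1 1) + edist p.1 p.2 :=
    (meas_one.comp measurable_fst).add measurable_edist
  have h3 := ae_eq_of_ae_le_of_lintegral_le (μ := π)
    (ae_of_all _ fun p : E 2 × E 2 => pointwise p.1 p.2) h2 hm.aemeasurable h1
  filter_upwards [h3, D.ae_coupling hπ.1] with p hp hq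
  exact vertical_of_eq hq.1.2.1.le (by linarith [(V_bound D.U1 hq.2).2.2.1]) hp

/-- Open sets of positive density have positive measure. -/
lemma Data.pos_of_open {A : Set (E 2)} (hA : IsOpen A) {x : E 2} (hx : x ∈ A)
    (hAf : ∀ y ∈ A, y 0 ∈ U ∧ y 1 ∈ Ioo (0 : ℝ) 1) : dens (f H k) A ≠ 0 := by
  intro h0
  have h1 : ∀ᵐ y ∂(dens (f H k)), y ∉ A := by
    rw [ae_iff]
    simpa using h0
  unfold dens at h1
  rw [ae_withDensity_iff D.meas_f] at h1
  have h2 : ∀ᵐ y ∂(volume : Measure (E 2)), y ∉ A := by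
    filter_upwards [h1] with y hy hyA
    refine hy ?_ hyA
    have h3 := D.f_ne.2 (hAf y hyA)
    have h4 : 0 < f H k y := lt_of_le_of_ne (D.f_nonneg y) (Ne.symm h3)
    exact (ENNReal.ofReal_pos.2 h4).ne'
  rw [ae_iff] at h2
  simp only [not_not, ofPred_mem_eq] at h2
  exact (hA.measure_pos volume ⟨x, hx⟩).ne' h2

/-- The support of an optimal plan contains a product set over the complement of `U`. -/
lemma Data.mem_support {π : Measure (E 2 × E 2)} (hπ : IsOptimal (dens (f H k)) (dens H) π)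
    {e s t : ℝ} (he : e ∈ Icc (0 : ℝ) 1) (heU : e ∉ U) (hs : s ∈ Ioo (0 : ℝ) 1)
    (ht : t ∈ Icc (2 : ℝ) 3) : (T (e, s), T (e, t)) ∈ π.support := by
  rw [← Measure.isClosed_support.closure_eq, Metric.mem_closure_iff]
  intro ε hε
  set η := ε / 6 with hη
  have hηpos : 0 < η := by positivity
  obtain ⟨x, hxU, hxe, hdx, hτx⟩ := exists_x D.openU D.U1 D.dense he heU ht hηpos
  -- the open set of good first coordinates
  have hτc := continuousOn_τ D.openU D.U1
  have hJ : IsOpen (U ∩ (fun x => |x - e|) ⁻¹' Iio η ∩ (d U) ⁻¹' Iio η ∩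
      (U ∩ (fun x => |τ U x - t|) ⁻¹' Iio η)) := by
    refine IsOpen.inter (IsOpen.inter (D.openU.inter ?_) ?_) ?_
    · exact isOpen_Iio.preimage (by fun_prop)
    · exact isOpen_Iio.preimage continuous_d
    · exact ((hτc.sub continuousOn_const).abs).isOpen_inter_preimage D.openU isOpen_Iio
  set J := U ∩ (fun x => |x - e|) ⁻¹' Iio η ∩ (d U) ⁻¹' Iio η ∩
      (U ∩ (fun x => |τ U x - t|) ⁻¹' Iio η) with hJdef
  have hxJ : x ∈ J := by
    refine ⟨⟨⟨hxU, hxe⟩, hdx⟩, hxU, ?_⟩
    simp [hτx, hηpos]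
  set A : Set (E 2) := {y | y 0 ∈ J ∧ y 1 ∈ Ioo (0 : ℝ) 1 ∩ Ioo (s - η) (s + η)} with hA
  have hAo : IsOpen A := by
    have h1 : IsOpen {y : E 2 | y 0 ∈ J} := hJ.preimage (by fun_prop)
    have h2 : IsOpen {y : E 2 | y 1 ∈ Ioo (0 : ℝ) 1 ∩ Ioo (s - η) (s + η)} :=
      (isOpen_Ioo.inter isOpen_Ioo).preimage (by fun_prop)
    exact h1.inter h2
  have hmemA : T (x, s) ∈ A := by
    refine ⟨by simpa using hxJ, ?_⟩
    simp only [T_one]
    exact ⟨hs, by linarith, by linarith⟩
  have hpos := D.pos_of_open hAo hmemA fun y hy => ⟨hy.1.1.1.1, hy.2.1⟩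
  rw [← hπ.1.2.1, Measure.map_apply measurable_fst hAo.measurableSet] at hpos
  have hfr : ∃ᵐ p ∂π, p ∈ Prod.fst ⁻¹' A := by
    rw [frequently_ae_iff]
    exact hpos
  obtain ⟨p, hpA, hpv, hpc, hps⟩ := (hfr.and_eventually ((D.vertical hπ).and
    ((D.ae_coupling hπ.1).and (Measure.support_mem_ae (μ := π))))).exists
  refine ⟨p, hps, ?_⟩
  have hJp : p.1 0 ∈ J := hpA.1
  have hsp := hpA.2.2
  obtain ⟨⟨⟨_, ha⟩, hb⟩, _, hc⟩ := hJp
  simp only [mem_preimage, mem_Iio] at ha hb hc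
  have hV := hpc.2.2
  simp only at hV
  rw [hpv] at hV
  have htt : |p.2 1 - t| < 2 * η := by
    have := abs_sub_le (p.2 1) (τ U (p.1 0)) t
    linarith
  have key : ∀ (y : E 2) (a b r : ℝ), |y 0 - a| < r → |y 1 - b| < r → dist (T (a, b)) y < 3 * r := by
    intro y a b r h1 h2
    have hr : 0 < r := (abs_nonneg _).trans_lt h1
    rw [EuclideanSpace.dist_eq, Fin.sum_univ_two, Real.dist_eq, Real.dist_eq, sq_abs, sq_abs,
      T_zero, T_one, Real.sqrt_lt' (by positivity)]
    have e1 : (a - y 0) ^ 2 < r ^ 2 := by rw [sq_lt_sq, abs_sub_comm, abs_of_pos hr]; exact h1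
    have e2 : (b - y 1) ^ 2 < r ^ 2 := by rw [sq_lt_sq, abs_sub_comm, abs_of_pos hr]; exact h2
    nlinarith
  rw [Prod.dist_eq, max_lt_iff]
  constructor
  · have := key p.1 e s (2 * η) (by linarith) (by rw [abs_lt]; constructor <;> linarith [hsp.1, hsp.2])
    calc dist (T (e, s)) p.1 < 3 * (2 * η) := this
      _ = ε := by rw [hη]; ring
  · have := key p.2 e t (2 * η) (by rw [hpv]; linarith) htt
    calc dist (T (e, t)) p.2 < 3 * (2 * η) := this
      _ = ε := by rw [hη]; ring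

end main

/-- the projection to three coordinates -/
def P3 (p : E 2 × E 2) : Fin 3 → ℝ := ![p.1 0, p.1 1, p.2 1]

lemma lipschitz_P3 : LipschitzWith 1 P3 := by
  refine LipschitzWith.of_dist_le_mul fun p q => ?_
  rw [NNReal.coe_one, one_mul, dist_pi_le_iff dist_nonneg]
  have h : ∀ (x y : E 2) (i : Fin 2), dist (x i) (y i) ≤ dist x y := by
    intro x y i
    rw [dist_eq_norm, dist_eq_norm]
    exact PiLp.norm_apply_le (x - y) i
  have h1 : dist p.1 q.1 ≤ dist p q := by rw [Prod.dist_eq]; exact le_max_left _ _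
  have h2 : dist p.2 q.2 ≤ dist p q := by rw [Prod.dist_eq]; exact le_max_right _ _
  intro i
  fin_cases i
  · exact (h _ _ 0).trans h1
  · exact (h _ _ 1).trans h1
  · exact (h _ _ 1).trans h2

lemma Data.dim {U : Set ℝ} {H : E 2 → ℝ} {k : ℝ → ℝ} (D : Data U H k)
    {π : Measure (E 2 × E 2)} (hπ : IsOptimal (dens (f H k)) (dens H) π) :
    3 ≤ dimH π.support := by
  set B : Fin 3 → Set ℝ := ![Icc 0 1 \ U, Ioo 0 1, Icc 2 3] with hB
  have hsub : Set.pi univ B ⊆ P3 '' π.support := by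
    intro v hv
    have h0 : v 0 ∈ Icc 0 1 \ U := hv 0 (mem_univ _)
    have h1 : v 1 ∈ Ioo (0 : ℝ) 1 := hv 1 (mem_univ _)
    have h2 : v 2 ∈ Icc (2 : ℝ) 3 := hv 2 (mem_univ _)
    refine ⟨_, D.mem_support hπ h0.1 h0.2 h1 h2, ?_⟩
    funext i
    fin_cases i <;> simp [P3]
  have hvol : volume (Set.pi univ B) ≠ 0 := by
    rw [volume_pi_pi, Fin.prod_univ_three]
    have hb0 : volume (B 0) ≠ 0 := by
      show volume (Icc 0 1 \ U) ≠ 0
      intro h0
      have h1 : volume (Icc (0 : ℝ) 1) ≤ volume (Icc 0 1 \ U) + volume U := by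
        refine (measure_mono (t := (Icc 0 1 \ U) ∪ U) ?_).trans (measure_union_le _ _)
        intro x hx
        by_cases hxU : x ∈ U
        · exact Or.inr hxU
        · exact Or.inl ⟨hx, hxU⟩
      rw [h0, zero_add, Real.volume_Icc, sub_zero, ENNReal.ofReal_one] at h1
      have h2 := h1.trans_lt D.Uvol
      exact absurd h2 (not_lt.2 (by
        rw [one_div]
        exact ENNReal.inv_le_one.2 (by norm_num)))
    have hb1 : volume (B 1) ≠ 0 := by
      show volume (Ioo (0 : ℝ) 1) ≠ 0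
      simp
    have hb2 : volume (B 2) ≠ 0 := by
      show volume (Icc (2 : ℝ) 3) ≠ 0
      rw [Real.volume_Icc]
      norm_num
    exact mul_ne_zero (mul_ne_zero hb0 hb1) hb2
  have h3 : (3 : ℝ≥0∞) ≤ dimH (Set.pi univ B) := by
    have h4 : (Measure.hausdorffMeasure ((Fintype.card (Fin 3) : ℕ) : ℝ) :
        Measure (Fin 3 → ℝ)) (Set.pi univ B) ≠ 0 := by
      rw [hausdorffMeasure_pi_real]
      exact hvol
    have h5 : (Measure.hausdorffMeasure (((3 : NNReal)) : ℝ) : Measure (Fin 3 → ℝ))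
        (Set.pi univ B) ≠ 0 := by
      simpa using h4
    exact_mod_cast le_dimH_of_hausdorffMeasure_ne_zero h5
  exact h3.trans ((dimH_mono hsub).trans (lipschitz_P3.dimH_image_le _))

/-- **Theorem** (negative answer to Q1). There are smooth compactly supported probability
densities `f`, `g` on the plane such that optimal couplings for the cost `|x - y|` exist and the
support of every optimal coupling has Hausdorff dimension at least `3`, hence larger than
`n = 2`. -/
theorem result : ∃ f g : E 2 → ℝ, IsSmoothDensity f ∧ IsSmoothDensity g ∧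
    (∃ π, IsOptimal (dens f) (dens g) π) ∧
    ∀ π, IsOptimal (dens f) (dens g) π → 3 ≤ dimH π.support := by
  obtain ⟨U, H, k, D⟩ := exists_data
  exact ⟨f H k, H, D.density_f, D.density_H, ⟨_, D.optimal⟩, fun π hπ => D.dim hπ⟩

end Pool.Agent.Results.MP_e338b6_an.SupportDimThree
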